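import Pool.Agent.Lib.MP_c67b86_co.Q.All

/-!
# MP_c67b86_co: counterexamples to Hajós' conjecture are reduced to 4-connected graphs
-/

set_option autoImplicit false

namespace Pool.Agent.Results.MP_c67b86_co.FourConnectedReduction

/-- `G` contains a subdivision of `H`: branch vertices `f a` and a path `P a b` for every edge `ab`
of `H`; a path contains no branch vertices except its ends, and a common vertex of the paths of two
different edges is a branch vertex -/
def ContainsSubdivision {V W : Type} (G : SimpleGraph V) (H : SimpleGraph W) : Prop :=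
  ∃ (f : W ↪ V) (P : ∀ a b : W, H.Adj a b → G.Walk (f a) (f b)),
    (∀ a b (h : H.Adj a b), (P a b h).IsPath) ∧
    (∀ a b (h : H.Adj a b) (c : W), f c ∈ (P a b h).support → c = a ∨ c = b) ∧
    ∀ a b (h : H.Adj a b) a' b' (h' : H.Adj a' b'), s(a, b) ≠ s(a', b') →
      ∀ v, v ∈ (P a b h).support → v ∈ (P a' b' h').support → v ∈ Set.range f

/-- `H` has at least five vertices and deleting at most three vertices leaves it connected -/
def FourConnected {n : ℕ} (H : SimpleGraph (Fin n)) : Prop :=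
  5 ≤ n ∧ ∀ S : Finset (Fin n), S.card ≤ 3 → (H.induce (S : Set (Fin n))ᶜ).Connected

/-- `G` is a counterexample to Hajós' conjecture for `k` -/
def Counterexample (k : ℕ) {V : Type} (G : SimpleGraph V) : Prop :=
  (k : ℕ∞) ≤ G.chromaticNumber ∧ ¬ ContainsSubdivision G (⊤ : SimpleGraph (Fin k))

open Pool.Agent.Lib.MPc67b86 in
/-- **Theorem.** For every `k ≥ 5` every counterexample to Hajós' conjecture for `k` contains a
subdivision of a counterexample `H` which is 4-connected and edge-critical. -/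
theorem result (k : ℕ) (hk : 5 ≤ k) {V : Type} [Fintype V] (G : SimpleGraph V)
    (hG : Counterexample k G) :
    ∃ (n : ℕ) (H : SimpleGraph (Fin n)), ContainsSubdivision G H ∧ Counterexample k H ∧
      FourConnected H ∧ ∀ e ∈ H.edgeSet, (H.deleteEdges {e}).Colorable (k - 1) := by
  classical
  obtain ⟨nc, rfl⟩ : ∃ nc, k = nc + 1 := ⟨k - 1, by omega⟩
  have hnc : 4 ≤ nc := by omega
  obtain ⟨hχ, hT⟩ := hG
  obtain ⟨n, G', hG', hTC⟩ := Q.mainB (Q.allNIV hnc) V G
    (fun h => hT (Q.FINM.walks_of_tk hnc h)) (Q.not_col hχ)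
  have hn : Nonempty (Fin n) := by
    by_contra hn
    rw [not_nonempty_iff] at hn
    exact hG'.bad.2.2 ⟨fun _ => ⟨0, by omega⟩, fun u => (hn.false u).elim⟩
  obtain ⟨h5, hconn⟩ := Q.FINM.conn hnc (Q.allDEG hnc) (Q.allSP3 hnc) hG' hn
  refine ⟨n, G', FINM.tc_walks hTC fun a => hG'.iso a, ⟨Q.chi_of_not_col hG'.bad.2.2,
    fun h => hG'.bad.2.1 (Q.FINM.tk_of_walks h)⟩,
    ⟨by simpa using h5, fun S hS => hconn S (by rwa [Set.ncard_coe_finset])⟩, ?_⟩
  intro e he
  induction e using Sym2.ind with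
  | _ a b =>
    obtain ⟨f, hf⟩ := Q.FINM.edge (Q.allTKL hnc) hG' a b ((SimpleGraph.mem_edgeSet G').1 he)
    refine ⟨SimpleGraph.Coloring.mk f ?_⟩
    intro u v huv
    rw [SimpleGraph.deleteEdges_adj] at huv
    exact hf u v huv.1 fun h => huv.2 (Set.mem_singleton_iff.2 h)

end Pool.Agent.Results.MP_c67b86_co.FourConnectedReduction
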