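import Pool.Agent.Lib.MP_c67b86_co.OC.All

/-!
# MP_c67b86_co: Hajós' conjecture for graphs which are bipartite up to a clique and one vertex
-/

set_option autoImplicit false

namespace Pool.Agent.Results.MP_c67b86_co.NearBipartite

/-- `G` contains a subdivision of `K_k`: branch vertices `f a` and a path `P a b` for `a ≠ b`; a path contains
no branch vertices except its ends, and a common vertex of the paths of two different pairs is a branch
vertex -/
def ContainsSubdivision {V : Type} (G : SimpleGraph V) (k : ℕ) : Prop :=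
  ∃ (f : Fin k ↪ V) (P : ∀ a b : Fin k, a ≠ b → G.Walk (f a) (f b)),
    (∀ a b (h : a ≠ b), (P a b h).IsPath) ∧
    (∀ a b (h : a ≠ b) (c : Fin k), f c ∈ (P a b h).support → c = a ∨ c = b) ∧
    ∀ a b (h : a ≠ b) a' b' (h' : a' ≠ b'), s(a, b) ≠ s(a', b') →
      ∀ v, v ∈ (P a b h).support → v ∈ (P a' b' h').support → v ∈ Set.range f

/-- `K` is a clique of `G` and every component of `G - K` becomes bipartite by deleting one vertex -/
def CliqueAndVertex {V : Type} (G : SimpleGraph V) (K : Finset V) : Prop :=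
  (∀ u ∈ K, ∀ v ∈ K, u ≠ v → G.Adj u v) ∧
    ∀ C : (G.induce {v | v ∉ K}).ConnectedComponent, ∃ x : V,
      (G.induce {v | v ≠ x ∧ ∃ h : v ∉ K, (⟨v, h⟩ : {v | v ∉ K}) ∈ C.supp}).Colorable 2

namespace Aux

open Pool.Agent.Lib.MPc67b86

theorem reach {V : Type} (G : SimpleGraph V) (K : Finset V) (u v : V)
    (h : (res G (K : Set V)ᶜ).Reachable u v) (hu : u ∉ K) :
    ∃ hv : v ∉ K, (G.induce {v | v ∉ K}).Reachable ⟨u, hu⟩ ⟨v, hv⟩ := by
  obtain ⟨p⟩ := h
  induction p with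
  | nil => exact ⟨hu, SimpleGraph.Reachable.refl _⟩
  | @cons a b c hab p ih =>
    have hb : b ∉ K := hab.2.2
    obtain ⟨hv, hr⟩ := ih hb
    refine ⟨hv, SimpleGraph.Reachable.trans (SimpleGraph.Adj.reachable ?_) hr⟩
    exact hab.1

theorem conv {V : Type} (G : SimpleGraph V) (nc : ℕ) (hnc : 4 ≤ nc) (h : Q.TK nc G) :
    ContainsSubdivision G (nc + 1) := by
  obtain ⟨f, P, h1, h2, h3⟩ := Q.FINM.walks_of_tk hnc h
  refine ⟨f, fun a b hab => P a b ((SimpleGraph.top_adj a b).2 hab), ?_, ?_, ?_⟩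
  · intro a b hab
    exact h1 a b _
  · intro a b hab c hc
    exact h2 a b _ c hc
  · intro a b hab a' b' hab' hne v hv hv'
    exact h3 a b _ a' b' _ hne v hv hv'

end Aux

open Pool.Agent.Lib.MPc67b86 in
/-- **Theorem.** Let `k ≥ 5` and `χ(G) ≥ k`.  If `G` has a clique `K` such that every component of `G - K`
becomes bipartite by deleting one vertex, in particular if `G` becomes bipartite by deleting fewer than `k` vertices,
then `G` contains a subdivision of `K_k`. -/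
theorem result (k : ℕ) (hk : 5 ≤ k) {V : Type} [Fintype V] (G : SimpleGraph V)
    (hχ : (k : ℕ∞) ≤ G.chromaticNumber) :
    ((∃ K : Finset V, CliqueAndVertex G K) → ContainsSubdivision G k) ∧
      ((∃ X : Finset V, X.card < k ∧ (G.induce {v | v ∉ X}).Colorable 2) →
        ContainsSubdivision G k) := by
  classical
  obtain ⟨nc, rfl⟩ : ∃ nc, k = nc + 1 := ⟨k - 1, by omega⟩
  have hnc : 4 ≤ nc := by omega
  have hcol : ¬ Q.Col nc G := Q.not_col hχ
  refine ⟨?_, ?_⟩
  · rintro ⟨K, hK, hC⟩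
    refine Aux.conv G nc hnc (Q.OC.mMainC nc V G K (by omega) hK ?_ hcol)
    intro u hu
    obtain ⟨x, ⟨col⟩⟩ := hC ((G.induce {v | v ∉ K}).connectedComponentMk ⟨u, hu⟩)
    refine ⟨x, fun v => if h : v ≠ x ∧ ∃ h : v ∉ K, (⟨v, h⟩ : {v | v ∉ K}) ∈
      ((G.induce {v | v ∉ K}).connectedComponentMk ⟨u, hu⟩).supp then
        decide (col ⟨v, h⟩ = 0) else false, ?_⟩
    intro v w hv hw hvx hwx hvw
    obtain ⟨hvK, hrv⟩ := Aux.reach G K u v hv hu
    obtain ⟨hwK, hrw⟩ := Aux.reach G K u w hw hu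
    have h1 : v ≠ x ∧ ∃ h : v ∉ K, (⟨v, h⟩ : {v | v ∉ K}) ∈
      ((G.induce {v | v ∉ K}).connectedComponentMk ⟨u, hu⟩).supp :=
      ⟨hvx, hvK, SimpleGraph.ConnectedComponent.sound hrv.symm⟩
    have h2 : w ≠ x ∧ ∃ h : w ∉ K, (⟨w, h⟩ : {v | v ∉ K}) ∈
      ((G.induce {v | v ∉ K}).connectedComponentMk ⟨u, hu⟩).supp :=
      ⟨hwx, hwK, SimpleGraph.ConnectedComponent.sound hrw.symm⟩
    show (if h : v ≠ x ∧ ∃ h : v ∉ K, (⟨v, h⟩ : {v | v ∉ K}) ∈
      ((G.induce {v | v ∉ K}).connectedComponentMk ⟨u, hu⟩).supp then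
        decide (col ⟨v, h⟩ = 0) else false) ≠
      (if h : w ≠ x ∧ ∃ h : w ∉ K, (⟨w, h⟩ : {v | v ∉ K}) ∈
      ((G.induce {v | v ∉ K}).connectedComponentMk ⟨u, hu⟩).supp then
        decide (col ⟨w, h⟩ = 0) else false)
    rw [dif_pos h1, dif_pos h2]
    have h3 : col ⟨v, h1⟩ ≠ col ⟨w, h2⟩ := col.valid hvw
    intro h4
    rw [decide_eq_decide] at h4
    apply h3
    have h5 : ∀ a b : Fin 2, (a = 0 ↔ b = 0) → a = b := by decide
    exact h5 _ _ h4
  · rintro ⟨X, hX, ⟨col⟩⟩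
    refine Aux.conv G nc hnc (Q.OC.mFIN nc V G X
      (fun v => if h : v ∉ X then decide (col ⟨v, h⟩ = 0) else false) (by omega) (by omega) ?_ hcol)
    intro u v hu hv huv
    show (if h : u ∉ X then decide (col ⟨u, h⟩ = 0) else false) ≠
      (if h : v ∉ X then decide (col ⟨v, h⟩ = 0) else false)
    rw [dif_pos hu, dif_pos hv]
    have h3 : col ⟨u, hu⟩ ≠ col ⟨v, hv⟩ := col.valid huv
    intro h4
    rw [decide_eq_decide] at h4
    apply h3
    have h5 : ∀ a b : Fin 2, (a = 0 ↔ b = 0) → a = b := by decide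
    exact h5 _ _ h4

end Pool.Agent.Results.MP_c67b86_co.NearBipartite
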