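import Pool.Agent.Lib.MP_c67b86_co.OC.AllP

/-!
# MP_c67b86_co: Hajós' conjecture for graphs which are perfect up to one vertex
-/

set_option autoImplicit false

namespace Pool.Agent.Results.MP_c67b86_co.NearPerfect

/-- `G` contains a subdivision of `K_k`: branch vertices `f a` and a path `P a b` for `a ≠ b`; a path contains
no branch vertices except its ends, and a common vertex of the paths of two different pairs is a branch
vertex -/
def ContainsSubdivision {V : Type} (G : SimpleGraph V) (k : ℕ) : Prop :=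
  ∃ (f : Fin k ↪ V) (P : ∀ a b : Fin k, a ≠ b → G.Walk (f a) (f b)),
    (∀ a b (h : a ≠ b), (P a b h).IsPath) ∧
    (∀ a b (h : a ≠ b) (c : Fin k), f c ∈ (P a b h).support → c = a ∨ c = b) ∧
    ∀ a b (h : a ≠ b) a' b' (h' : a' ≠ b'), s(a, b) ≠ s(a', b') →
      ∀ v, v ∈ (P a b h).support → v ∈ (P a' b' h').support → v ∈ Set.range f

/-- every induced subgraph of `G - x` which contains no `K_(k-1)` is `(k-2)`-colourable -/
def OneVertex {V : Type} (G : SimpleGraph V) (k : ℕ) (x : V) : Prop :=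
  ∀ A : Set V, x ∉ A → (G.induce A).CliqueFree (k - 1) → (G.induce A).Colorable (k - 2)

/-- `H` is perfect: in every induced subgraph the chromatic number is the clique number -/
def Perfect {W : Type} (H : SimpleGraph W) : Prop :=
  ∀ A : Set W, (H.induce A).chromaticNumber = ((H.induce A).cliqueNum : ℕ∞)

namespace Aux

open Pool.Agent.Lib.MPc67b86

theorem conv {V : Type} (G : SimpleGraph V) (nc : ℕ) (hnc : 4 ≤ nc) (h : Q.TK nc G) :
    ContainsSubdivision G (nc + 1) := by
  obtain ⟨f, P, h1, h2, h3⟩ := Q.FINM.walks_of_tk hnc h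
  refine ⟨f, fun a b hab => P a b ((SimpleGraph.top_adj a b).2 hab), ?_, ?_, ?_⟩
  · intro a b hab
    exact h1 a b _
  · intro a b hab c hc
    exact h2 a b _ c hc
  · intro a b hab a' b' hab' hne v hv hv'
    exact h3 a b _ a' b' _ hne v hv hv'

theorem perf {V : Type} [Finite V] (G : SimpleGraph V) (k : ℕ) (hk : 5 ≤ k) (x : V)
    (h : Perfect (G.induce {v | v ≠ x})) : OneVertex G k x := by
  classical
  intro A hx hA
  let A' : Set {v | v ≠ x} := {v | v.1 ∈ A}
  let e : (G.induce A) →g ((G.induce {v | v ≠ x}).induce A') :=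
    { toFun := fun v => ⟨⟨v.1, fun h => hx (h ▸ v.2)⟩, v.2⟩
      map_rel' := fun {a b} hab => hab }
  let e' : ((G.induce {v | v ≠ x}).induce A') ↪g (G.induce A) :=
    { toFun := fun v => ⟨v.1.1, v.2⟩
      inj' := fun a b hab => Subtype.ext (Subtype.ext (congrArg (fun v : A => v.1) hab))
      map_rel_iff' := Iff.rfl }
  have hfree : ((G.induce {v | v ≠ x}).induce A').CliqueFree (k - 1) := hA.comap ⟨e'.toCopy⟩
  have hnum : ((G.induce {v | v ≠ x}).induce A').cliqueNum ≤ k - 2 := by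
    by_contra hlt
    obtain ⟨s, hs⟩ := ((G.induce {v | v ≠ x}).induce A').exists_isNClique_cliqueNum
    exact (hfree.mono (by omega : k - 1 ≤ _)) s hs
  have hchi : ((G.induce {v | v ≠ x}).induce A').chromaticNumber ≤ ((k - 2 : ℕ) : ℕ∞) := by
    rw [h A']
    exact_mod_cast hnum
  obtain ⟨C⟩ := SimpleGraph.chromaticNumber_le_iff_colorable.1 hchi
  exact ⟨C.comp e⟩

theorem lev {V : Type} [Finite V] (G : SimpleGraph V) (nc : ℕ) (hnc : 4 ≤ nc) (x : V)
    (h : OneVertex G (nc + 1) x) : Q.OC.Lev nc G {x}ᶜ := by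
  classical
  intro A' hA' hW
  have h1 : (G.induce A').CliqueFree (nc + 1 - 1) := by
    intro s hs
    obtain ⟨w, hw, hwA⟩ := hW (s.map (Function.Embedding.subtype _)) ⟨by
      rw [Finset.card_map, hs.card_eq]; omega, by
      intro u hu v hv huv
      rw [Finset.mem_map] at hu hv
      obtain ⟨a, ha, rfl⟩ := hu
      obtain ⟨b, hb, rfl⟩ := hv
      exact hs.isClique ha hb (fun e => huv (congrArg _ e))⟩
    rw [Finset.mem_map] at hw
    obtain ⟨a, -, rfl⟩ := hw
    exact hwA a.2
  obtain ⟨C⟩ := h A' (fun hx => hA' hx rfl) h1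
  refine ⟨fun v => if hv : v ∈ A' then C ⟨v, hv⟩ else ⟨0, by omega⟩, ?_⟩
  intro u hu v hv huv
  show (if hv : u ∈ A' then C ⟨u, hv⟩ else ⟨0, by omega⟩) ≠
    (if hv : v ∈ A' then C ⟨v, hv⟩ else ⟨0, by omega⟩)
  rw [dif_pos hu, dif_pos hv]
  exact C.valid huv

end Aux

open Pool.Agent.Lib.MPc67b86 in
/-- **Theorem.** Let `k ≥ 5` and `χ(G) ≥ k`.  If there is a vertex `x` such that every induced subgraph of `G - x`
without `K_(k-1)` is `(k-2)`-colourable, in particular if `G - x` is perfect for a vertex `x`, then `G` contains a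
subdivision of `K_k`. -/
theorem result (k : ℕ) (hk : 5 ≤ k) {V : Type} [Fintype V] (G : SimpleGraph V)
    (hχ : (k : ℕ∞) ≤ G.chromaticNumber) :
    ((∃ x : V, OneVertex G k x) → ContainsSubdivision G k) ∧
      ((∃ x : V, Perfect (G.induce {v | v ≠ x})) → ContainsSubdivision G k) := by
  classical
  obtain ⟨nc, rfl⟩ : ∃ nc, k = nc + 1 := ⟨k - 1, by omega⟩
  have hnc : 4 ≤ nc := by omega
  have hcol : ¬ Q.Col nc G := Q.not_col hχ
  refine ⟨?_, ?_⟩
  · rintro ⟨x, hx⟩
    exact Aux.conv G nc hnc (Q.OC.mPEF nc V G x (by omega) (Aux.lev G nc hnc x hx) hcol)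
  · rintro ⟨x, hx⟩
    exact Aux.conv G nc hnc (Q.OC.mPEF nc V G x (by omega)
      (Aux.lev G nc hnc x (Aux.perf G (nc + 1) hk x hx)) hcol)

end Pool.Agent.Results.MP_c67b86_co.NearPerfect
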