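import Pool.Agent.Lib.MP_c67b86_co.All

/-!
# MP_c67b86_co: Hajós' conjecture for five colours and treewidth four
-/

set_option autoImplicit false

namespace Pool.Agent.Results.MP_c67b86_co.TreewidthFour

/-- `G` has a tree decomposition of width at most `k` -/
def TreewidthLE (k : ℕ) {V : Type} (G : SimpleGraph V) : Prop :=
  ∃ (ι : Type) (_ : Finite ι) (T : SimpleGraph ι) (bag : ι → Finset V), T.IsTree ∧
    (∀ v, ∃ i, v ∈ bag i) ∧
    (∀ u v, G.Adj u v → ∃ i, u ∈ bag i ∧ v ∈ bag i) ∧
    (∀ v, (T.induce {i | v ∈ bag i}).Connected) ∧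
    ∀ i, (bag i).card ≤ k + 1

/-- `G` contains a subdivision of `K_k`: branch vertices `f i` and a path `P i j` for `i < j`; a path
contains no branch vertices except its ends, and a common vertex of two of the paths is a branch
vertex -/
def ContainsSubdivision {V : Type} (G : SimpleGraph V) (k : ℕ) : Prop :=
  ∃ (f : Fin k ↪ V) (P : ∀ i j : Fin k, G.Walk (f i) (f j)),
    (∀ i j : Fin k, i < j → (P i j).IsPath) ∧
    (∀ i j : Fin k, i < j → ∀ l : Fin k, f l ∈ (P i j).support → l = i ∨ l = j) ∧
    ∀ i j i' j' : Fin k, i < j → i' < j' → (i ≠ i' ∨ j ≠ j') →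
      ∀ v : V, v ∈ (P i j).support → v ∈ (P i' j').support → v ∈ Set.range f

open Pool.Agent.Lib.MPc67b86 in
/-- **Theorem.** Every finite graph of treewidth at most four with chromatic number at least five
contains a subdivision of `K_5`. -/
theorem result {V : Type} [Fintype V] (G : SimpleGraph V) (hχ : 5 ≤ G.chromaticNumber)
    (h : TreewidthLE 4 G) : ContainsSubdivision G 5 := by
  classical
  refine allTKW V G ?_
  by_contra hT
  exact not_col4 hχ (mainA allELM allELL allNIV allSTR allGAD V G (elim_of_tw allTDE h) hT)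

end Pool.Agent.Results.MP_c67b86_co.TreewidthFour
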